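import Mathlib
open Matrix
namespace Pool.Agent.Results.MP_0e199b_al.OrderFive

/-- The set of indices occurring in an increasing index sequence. -/
def idx {n k : ℕ} (α : Fin k ↪o Fin n) : Finset (Fin n) := Finset.univ.image α

/-- `l(B)`: the least real eigenvalue of `B`, and `∞` if there is none. -/
noncomputable def leastReal {k : ℕ} (B : Matrix (Fin k) (Fin k) ℂ) : EReal :=
  sInf {x : EReal | ∃ r : ℝ, x = (r : EReal) ∧ (r : ℂ) ∈ spectrum ℂ B}

/-- `A` is an omega-matrix: `l(A(α)) ≤ l(A(β)) < ∞` whenever `∅ ≠ β ⊆ α`. -/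
def IsOmega {n : ℕ} (A : Matrix (Fin n) (Fin n) ℂ) : Prop :=
  ∀ (k m : ℕ) (β : Fin k ↪o Fin n) (α : Fin m ↪o Fin n), 0 < k → idx β ⊆ idx α →
    leastReal (A.submatrix α α) ≤ leastReal (A.submatrix β β) ∧ leastReal (A.submatrix β β) < ⊤

/-- `A` is a tau-matrix: an omega-matrix with `l(A) ≥ 0`. -/
def IsTau {n : ℕ} (A : Matrix (Fin n) (Fin n) ℂ) : Prop := IsOmega A ∧ 0 ≤ leastReal A

/-- Inequality (V) for a matrix of order `n` whose least real eigenvalue is finite:
`|arg (μ - l(A))| ≤ π/2 - π/n` for every eigenvalue `μ ≠ l(A)`. -/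
def SatisfiesV {n : ℕ} (A : Matrix (Fin n) (Fin n) ℂ) : Prop :=
  ∀ t : ℝ, leastReal A = (t : EReal) → ∀ μ ∈ spectrum ℂ A, μ ≠ (t : ℂ) →
    |Complex.arg (μ - t)| ≤ Real.pi / 2 - Real.pi / n

section Basic
variable {n : ℕ}

theorem det_shift_zero {A : Matrix (Fin n) (Fin n) ℂ} {μ : ℂ} (hμ : μ ∈ spectrum ℂ A) :
    (A + (-μ) • (1 : Matrix (Fin n) (Fin n) ℂ)).det = 0 := by
  rw [spectrum.mem_iff, Matrix.isUnit_iff_isUnit_det, isUnit_iff_ne_zero, not_not] at hμ
  have e : A + (-μ) • (1 : Matrix (Fin n) (Fin n) ℂ) = -((algebraMap ℂ (Matrix (Fin n) (Fin n) ℂ)) μ - A) := by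
    rw [Algebra.algebraMap_eq_smul_one, neg_smul]; abel
  rw [e, Matrix.det_neg, hμ, mul_zero]

theorem mem_spectrum_of_det {A : Matrix (Fin n) (Fin n) ℂ} {μ : ℂ}
    (h : (A + (-μ) • (1 : Matrix (Fin n) (Fin n) ℂ)).det = 0) : μ ∈ spectrum ℂ A := by
  rw [spectrum.mem_iff, Matrix.isUnit_iff_isUnit_det, isUnit_iff_ne_zero, not_not]
  have e : (algebraMap ℂ (Matrix (Fin n) (Fin n) ℂ)) μ - A = -(A + (-μ) • (1 : Matrix (Fin n) (Fin n) ℂ)) := by
    rw [Algebra.algebraMap_eq_smul_one, neg_smul]; abel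
  rw [e, Matrix.det_neg, h, mul_zero]

end Basic

section Witness

open Complex

/-- principal submatrices containing the first index -/
def shp (k : ℕ) : Matrix (Fin (k+1)) (Fin (k+1)) ℂ := fun i j =>
  if j = 0 then 50625 else if i = 0 then 160 else if i = j then 161 else if j < i then 160 else 0

/-- principal submatrices not containing the first index -/
def tri (k : ℕ) : Matrix (Fin k) (Fin k) ℂ := fun i j => if i = j then 161 else if j < i then 160 else 0

theorem det_tri (k : ℕ) (x : ℂ) : (tri k + x • (1 : Matrix (Fin k) (Fin k) ℂ)).det = (x + 161) ^ k := by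
  rw [Matrix.det_of_lowerTriangular]
  · have : ∀ i : Fin k, (tri k + x • (1 : Matrix (Fin k) (Fin k) ℂ)) i i = x + 161 := by
      intro i
      simp [tri]; ring
    simp [this]
  · intro i j hij
    have h1 : i < j := hij
    simp [tri, h1.ne, not_lt.mpr h1.le]

theorem det_shp (k : ℕ) (x : ℂ) :
    (shp k + x • (1 : Matrix (Fin (k+1)) (Fin (k+1)) ℂ)).det = x * (x + 161) ^ k + 50625 * (x + 1) ^ k := by
  have hrow : (shp k + x • (1 : Matrix (Fin (k+1)) (Fin (k+1)) ℂ)) =
      (shp k + x • (1 : Matrix (Fin (k+1)) (Fin (k+1)) ℂ)).updateRow 0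
        ((fun j => if j = 0 then x else 0) + (fun j => if j = 0 then 50625 else 160)) := by
    ext i j
    by_cases hi : i = 0
    · subst hi
      rw [Matrix.updateRow_self]
      by_cases hj : j = 0
      · subst hj; simp [shp]; ring
      · have hj' : (0 : Fin (k+1)) ≠ j := fun h => hj h.symm
        simp [shp, hj, Matrix.one_apply_ne hj']
    · rw [Matrix.updateRow_ne hi]
  rw [hrow, Matrix.det_updateRow_add]
  congr 1
  · -- first part: expand along the first row
    rw [Matrix.det_succ_row_zero, Finset.sum_eq_single 0]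
    · have e : ((shp k + x • (1 : Matrix (Fin (k+1)) (Fin (k+1)) ℂ)).updateRow 0 (fun j => if j = 0 then x else 0)).submatrix
          Fin.succ (Fin.succAbove 0) = tri k + x • (1 : Matrix (Fin k) (Fin k) ℂ) := by
        ext i j
        simp only [Matrix.submatrix_apply, Fin.zero_succAbove]
        rw [Matrix.updateRow_ne (Fin.succ_ne_zero i)]
        simp [shp, tri, Matrix.one_apply]
      rw [e, det_tri]
      simp
    · intro j _ hj
      rw [Matrix.updateRow_self]
      simp [hj]
    · simp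
  · -- second part: subtract the first row from the others
    let B : Matrix (Fin (k+1)) (Fin (k+1)) ℂ := fun i j =>
      if i = 0 then (if j = 0 then 50625 else 160) else if i = j then x + 1 else if i < j then -160 else 0
    have h1 : ((shp k + x • (1 : Matrix (Fin (k+1)) (Fin (k+1)) ℂ)).updateRow 0 (fun j => if j = 0 then 50625 else 160)).det
        = B.det := by
      apply Matrix.det_eq_of_forall_row_eq_smul_add_const (fun i => if i = 0 then 0 else 1) 0 (by simp)
      intro i j
      by_cases hi : i = 0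
      · subst hi; rw [Matrix.updateRow_self]; simp [B]
      · rw [Matrix.updateRow_ne hi]
        by_cases hj : j = 0
        · subst hj
          simp [B, shp, hi]
        · by_cases hij : i = j
          · subst hij
            simp [B, shp, hi]; ring
          · rcases lt_or_gt_of_ne hij with h | h
            · simp [B, shp, hi, hj, hij, h, not_lt.mpr h.le, Matrix.one_apply_ne hij]
            · simp [B, shp, hi, hj, hij, h, not_lt.mpr h.le, Matrix.one_apply_ne hij]
    rw [h1, Matrix.det_of_upperTriangular]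
    · rw [Fin.prod_univ_succ]
      simp [B]
    · intro i j hij
      have h2 : j < i := hij
      have hi : i ≠ 0 := by
        rintro rfl
        exact absurd h2 (Fin.not_lt_zero _)
      simp [B, hi, h2.ne', not_lt.mpr h2.le]

/-- the complex witness of order 5:
first column `50625`, first row `160` off the diagonal, then `161` on the diagonal, `160` below it, `0` above it -/
def wit' : Matrix (Fin 5) (Fin 5) ℂ := fun i j =>
  if j = 0 then 50625 else if i = 0 then 160 else if i = j then 161 else if j < i then 160 else 0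

theorem wit'_apply (i j : Fin 5) : wit' i j =
    if j = 0 then 50625 else if i = 0 then 160 else if i = j then 161 else if j < i then 160 else 0 := rfl

theorem zero_iff {k : ℕ} (α : Fin (k+1) ↪o Fin 5) (h : α 0 = 0) (i : Fin (k+1)) : α i = 0 ↔ i = 0 := by
  constructor
  · intro hi
    exact α.injective (hi.trans h.symm)
  · rintro rfl; exact h

theorem sub_shp {k : ℕ} (α : Fin (k+1) ↪o Fin 5) (h : α 0 = 0) : wit'.submatrix α α = shp k := by
  ext i j
  simp only [Matrix.submatrix_apply, wit'_apply, shp, zero_iff α h, α.injective.eq_iff, α.lt_iff_lt]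

theorem sub_tri {k : ℕ} (α : Fin k ↪o Fin 5) (h : ∀ i, α i ≠ 0) : wit'.submatrix α α = tri k := by
  ext i j
  simp only [Matrix.submatrix_apply, wit'_apply, tri, h, if_false, α.injective.eq_iff, α.lt_iff_lt]

theorem cases_emb {m : ℕ} (α : Fin m ↪o Fin 5) :
    (∃ k, ∃ h : m = k + 1, α (Fin.cast h.symm 0) = 0) ∨ (∀ i, α i ≠ 0) := by
  by_cases hc : ∃ i, α i = 0
  · left
    obtain ⟨i, hi⟩ := hc
    rcases m with _ | k
    · exact i.elim0
    · refine ⟨k, rfl, ?_⟩
      have h1 : α 0 ≤ α i := α.le_iff_le.mpr (Fin.zero_le i)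
      rw [hi] at h1
      exact Fin.le_zero_iff.mp h1
  · right
    push Not at hc
    exact hc

/-- the real polynomial whose roots are the real eigenvalues of `shp k` -/
def F (k : ℕ) (t : ℝ) : ℝ := 50625 * (1 - t) ^ k - t * (161 - t) ^ k

theorem spec_shp (k : ℕ) (r : ℝ) : (r : ℂ) ∈ spectrum ℂ (shp k) ↔ F k r = 0 := by
  have e : (shp k + (-(r : ℂ)) • (1 : Matrix (Fin (k+1)) (Fin (k+1)) ℂ)).det = ((F k r : ℝ) : ℂ) := by
    rw [det_shp]
    simp only [F]
    push_cast
    ring
  constructor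
  · intro h
    have := det_shift_zero h
    rw [e] at this
    exact_mod_cast this
  · intro h
    apply mem_spectrum_of_det
    rw [e, h]; simp

theorem spec_tri (k : ℕ) (hk : 0 < k) (r : ℝ) : (r : ℂ) ∈ spectrum ℂ (tri k) ↔ r = 161 := by
  have e : (tri k + (-(r : ℂ)) • (1 : Matrix (Fin k) (Fin k) ℂ)).det = (((161 - r) ^ k : ℝ) : ℂ) := by
    rw [det_tri]
    push_cast
    ring
  constructor
  · intro h
    have := det_shift_zero h
    rw [e] at this
    have h2 : (161 - r) ^ k = 0 := by exact_mod_cast this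
    have := pow_eq_zero_iff (hk.ne') |>.mp h2
    linarith
  · intro h
    apply mem_spectrum_of_det
    rw [e, h]
    simp [hk.ne']

theorem leastReal_eq {k : ℕ} {B : Matrix (Fin k) (Fin k) ℂ} {t : ℝ}
    (h : IsLeast {r : ℝ | (r : ℂ) ∈ spectrum ℂ B} t) : leastReal B = (t : EReal) := by
  apply le_antisymm
  · exact sInf_le ⟨t, rfl, h.1⟩
  · apply le_sInf
    rintro x ⟨r, rfl, hr⟩
    exact EReal.coe_le_coe_iff.mpr (h.2 hr)

theorem F_cont (k : ℕ) : Continuous (F k) := by
  unfold F; fun_prop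

theorem F_pos_of_nonpos (k : ℕ) {t : ℝ} (ht : t ≤ 0) : 0 < F k t := by
  unfold F
  have h1 : 0 < 50625 * (1 - t) ^ k := by
    have : 0 < 1 - t := by linarith
    positivity
  have h2 : t * (161 - t) ^ k ≤ 0 := by
    have : 0 ≤ (161 - t) ^ k := pow_nonneg (by linarith) _
    exact mul_nonpos_of_nonpos_of_nonneg ht this
  linarith

theorem exists_least (k : ℕ) {b : ℝ} (hb : 0 < b) (hF : F k b ≤ 0) :
    ∃ t, IsLeast {r : ℝ | F k r = 0} t ∧ 0 < t ∧ t ≤ b := by
  have hiv : ∃ r ∈ Set.Icc 0 b, F k r = 0 := by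
    have h := intermediate_value_Icc' hb.le ((F_cont k).continuousOn (s := Set.Icc 0 b))
    exact h ⟨hF, (F_pos_of_nonpos k le_rfl).le⟩
  have hcomp : IsCompact ({r : ℝ | F k r = 0} ∩ Set.Icc 0 b) :=
    (isCompact_Icc).inter_left (isClosed_eq (F_cont k) continuous_const)
  obtain ⟨r, hr, hr0⟩ := hiv
  obtain ⟨t, ht⟩ := hcomp.exists_isLeast ⟨r, hr0, hr⟩
  refine ⟨t, ⟨ht.1.1, ?_⟩, ?_, ht.1.2.2⟩
  · intro x hx
    by_cases hx0 : x ≤ 0
    · exact absurd hx (F_pos_of_nonpos k hx0).ne'
    · by_cases hxb : x ≤ b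
      · exact ht.2 ⟨hx, (not_le.mp hx0).le, hxb⟩
      · exact ht.1.2.2.trans (not_le.mp hxb).le
  · by_contra hcon
    exact absurd ht.1.1 (F_pos_of_nonpos k (not_lt.mp hcon)).ne'

/-- data on the least roots -/
theorem roots_data : ∃ T : ℕ → ℝ, (∀ k, IsLeast {r : ℝ | F k r = 0} (T k)) ∧ (∀ k, 0 < T k) ∧ (∀ k, T (k+1) < 1) ∧
    ∀ k, T (k+1) ≤ T k := by
  have h0 : ∀ k, ∃ t, IsLeast {r : ℝ | F k r = 0} t ∧ 0 < t ∧ (0 < k → t < 1) := by
    intro k
    rcases Nat.eq_zero_or_pos k with rfl | hk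
    · obtain ⟨t, h1, h2, _⟩ := exists_least 0 (b := 50625) (by norm_num) (by norm_num [F])
      exact ⟨t, h1, h2, fun h => absurd h (lt_irrefl _)⟩
    · have hF : F k 1 < 0 := by
        simp only [F, sub_self]
        rw [zero_pow hk.ne']
        norm_num
      obtain ⟨t, h1, h2, h3⟩ := exists_least k one_pos hF.le
      refine ⟨t, h1, h2, fun _ => lt_of_le_of_ne h3 ?_⟩
      rintro rfl
      exact absurd h1.1 hF.ne
  choose T h1 h2 h3 using h0
  refine ⟨T, h1, h2, fun k => h3 (k+1) (Nat.succ_pos k), ?_⟩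
  intro k
  have hroot : F k (T k) = 0 := (h1 k).1
  have hV : 0 < (1 - T k) ^ k := by
    rcases Nat.eq_zero_or_pos k with rfl | hk
    · simp
    · exact pow_pos (by linarith [h3 k hk]) _
  have hneg : F (k+1) (T k) ≤ 0 := by
    have e : F (k+1) (T k) = -160 * (50625 * (1 - T k) ^ k) + (161 - T k) * F k (T k) := by
      simp only [F]; ring
    rw [e, hroot]
    nlinarith
  obtain ⟨t, ht, _, hle⟩ := exists_least (k+1) (h2 k) hneg
  have : T (k+1) = t := (h1 (k+1)).unique ht
  rw [this]; exact hle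

theorem idx_card {n k : ℕ} (α : Fin k ↪o Fin n) : (idx α).card = k := by
  rw [idx, Finset.card_image_of_injective _ α.injective]; simp

theorem wit_omega_pos : IsOmega wit' ∧ 0 ≤ leastReal wit' ∧ ∃ t : ℝ, 0 < t ∧ leastReal wit' = (t : EReal) := by
  obtain ⟨T, hL, hpos, hlt, hmono⟩ := roots_data
  have hanti : Antitone T := antitone_nat_of_succ_le hmono
  have hshp : ∀ k, leastReal (shp k) = (T k : EReal) := by
    intro k
    apply leastReal_eq
    have e : {r : ℝ | (r : ℂ) ∈ spectrum ℂ (shp k)} = {r : ℝ | F k r = 0} := by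
      ext r; exact spec_shp k r
    rw [e]; exact hL k
  have htri : ∀ k, 0 < k → leastReal (tri k) = ((161 : ℝ) : EReal) := by
    intro k hk
    apply leastReal_eq
    have e : {r : ℝ | (r : ℂ) ∈ spectrum ℂ (tri k)} = {161} := by
      ext r; exact spec_tri k hk r
    rw [e]; exact isLeast_singleton
  constructor
  · intro k m β α hk hsub
    have hkm : k ≤ m := by
      have := Finset.card_le_card hsub
      rwa [idx_card, idx_card] at this
    rcases cases_emb β with ⟨b, rfl, hb⟩ | hb
    · have hb0 : (0 : Fin 5) ∈ idx β := Finset.mem_image.mpr ⟨_, Finset.mem_univ _, hb⟩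
      rcases cases_emb α with ⟨a, rfl, ha⟩ | ha
      · rw [sub_shp β hb, sub_shp α ha, hshp, hshp]
        exact ⟨EReal.coe_le_coe_iff.mpr (hanti (by omega)), EReal.coe_lt_top _⟩
      · obtain ⟨i, _, hi⟩ := Finset.mem_image.mp (hsub hb0)
        exact absurd hi (ha i)
    · rcases cases_emb α with ⟨a, rfl, ha⟩ | ha
      · rw [sub_tri β hb, sub_shp α ha, hshp, htri k hk]
        refine ⟨EReal.coe_le_coe_iff.mpr ?_, EReal.coe_lt_top _⟩
        have ha1 : 0 < a := by
          by_contra hcon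
          have ha0 : a = 0 := by omega
          subst ha0
          have hcard : (idx β).card = (idx α).card := by rw [idx_card, idx_card]; omega
          have heq := Finset.eq_of_subset_of_card_le hsub hcard.ge
          have h0 : (0 : Fin 5) ∈ idx α := Finset.mem_image.mpr ⟨_, Finset.mem_univ _, ha⟩
          rw [← heq] at h0
          obtain ⟨i, _, hi⟩ := Finset.mem_image.mp h0
          exact hb i hi
        obtain ⟨a', rfl⟩ : ∃ a', a = a' + 1 := ⟨a - 1, by omega⟩
        linarith [hlt a']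
      · rw [sub_tri β hb, sub_tri α ha, htri k hk, htri m (by omega)]
        exact ⟨le_rfl, EReal.coe_lt_top _⟩
  · have e : wit' = shp 4 := by
      have := sub_shp (RelEmbedding.refl (α := Fin 5) (· ≤ ·)) rfl
      simpa using this
    rw [e, hshp]
    exact ⟨by exact_mod_cast (hpos 4).le, T 4, hpos 4, rfl⟩

theorem wit_eigenvalue : -(7 + 24 * I) ∈ spectrum ℂ wit' := by
  apply mem_spectrum_of_det
  have e : wit' = shp 4 := by
    have := sub_shp (RelEmbedding.refl (α := Fin 5) (· ≤ ·)) rfl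
    simpa using this
  rw [e, neg_neg, det_shp]
  have h2 : I ^ 2 = -1 := I_sq
  have h4 : I ^ 4 = 1 := I_pow_four
  have h3 : I ^ 3 = -I := by rw [pow_succ, h2]; ring
  have h5 : I ^ 5 = I := by rw [pow_succ, h4]; ring
  ring_nf
  rw [h2, h3, h4, h5]
  ring

end Witness

/-- There is a tau-matrix of order 5 that does not satisfy inequality (V). -/
theorem result : ∃ A : Matrix (Fin 5) (Fin 5) ℂ, IsTau A ∧ ¬ SatisfiesV A := by
  obtain ⟨h1, h2, t, ht, hl⟩ := wit_omega_pos
  refine ⟨wit', ⟨h1, h2⟩, ?_⟩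
  intro hV
  have hne : -(7 + 24 * Complex.I) ≠ (t : ℂ) := by
    intro h
    have := congrArg Complex.im h
    simp at this
  have h := hV t hl _ wit_eigenvalue hne
  have hre : (-(7 + 24 * Complex.I) - (t : ℂ)).re < 0 := by
    simp; linarith
  have h3 : ¬ |Complex.arg (-(7 + 24 * Complex.I) - (t : ℂ))| ≤ Real.pi / 2 := by
    rw [Complex.abs_arg_le_pi_div_two_iff]
    exact not_le.mpr hre
  apply h3
  have hpi := Real.pi_pos
  have h5 : 0 ≤ Real.pi / (5 : ℕ) := by positivity
  linarith

end Pool.Agent.Results.MP_0e199b_al.OrderFive
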